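import Pool.Agent.Helper26.D5.Sheet

/-!
# The exponential potential (rows PS1 - PS5 of version 5, MP_fcb106_co)
-/

set_option autoImplicit false

namespace Pool.Agent.Helper85.D5

open Finset Pool.Agent.Helper33.DP Pool.Agent.Helper63.D4 Pool.Agent.Helper26.D5

lemma convex_cosh : ConvexOn ℝ Set.univ Real.cosh := by
  refine ⟨convex_univ, fun x _ y _ a b ha hb hab => ?_⟩
  have h1 := convexOn_exp.2 (Set.mem_univ x) (Set.mem_univ y) ha hb hab
  have h2 := convexOn_exp.2 (Set.mem_univ (-x)) (Set.mem_univ (-y)) ha hb hab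
  simp only [smul_eq_mul] at *
  rw [Real.cosh_eq, Real.cosh_eq, Real.cosh_eq]
  have : -(a * x + b * y) = a * (-x) + b * (-y) := by ring
  rw [this]
  linarith

/-- Jensen's inequality for `cosh (· / r)`. -/
lemma jensen {ι : Type*} (s : Finset ι) (P F : ι → ℝ) (r : ℝ) (h0 : ∀ i ∈ s, 0 ≤ P i)
    (h1 : ∑ i ∈ s, P i = 1) :
    Real.cosh ((∑ i ∈ s, P i * F i) / r) ≤ ∑ i ∈ s, P i * Real.cosh (F i / r) := by
  have h := convex_cosh.map_sum_le (t := s) (w := P) (p := fun i => F i / r) h0 h1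
    (fun _ _ => Set.mem_univ _)
  simp only [smul_eq_mul] at h
  have e : (∑ i ∈ s, P i * F i) / r = ∑ i ∈ s, P i * (F i / r) := by
    rw [Finset.sum_div]
    exact Finset.sum_congr rfl (fun i _ => by ring)
  rw [e]
  exact h

theorem PS1 : ST_PS1 := by
  intro w P F h0 hr hc
  constructor
  · unfold Psi
    calc ∑ a, ∑ x, Real.cosh ((∑ b, P x b * F a b) / (4 * w))
        ≤ ∑ a, ∑ x, ∑ b, P x b * Real.cosh (F a b / (4 * w)) := by
          refine Finset.sum_le_sum (fun a _ => Finset.sum_le_sum (fun x _ => ?_))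
          exact jensen univ (fun b => P x b) (fun b => F a b) _ (fun b _ => h0 x b) (hr x)
      _ = ∑ a, ∑ b, ∑ x, P x b * Real.cosh (F a b / (4 * w)) :=
          Finset.sum_congr rfl (fun a _ => Finset.sum_comm)
      _ = ∑ a, ∑ b, Real.cosh (F a b / (4 * w)) := by
          refine Finset.sum_congr rfl (fun a _ => Finset.sum_congr rfl (fun b _ => ?_))
          rw [← Finset.sum_mul, hc b, one_mul]
  · unfold Psi
    calc ∑ x, ∑ b, Real.cosh ((∑ a, P a x * F a b) / (4 * w))
        ≤ ∑ x, ∑ b, ∑ a, P a x * Real.cosh (F a b / (4 * w)) := by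
          refine Finset.sum_le_sum (fun x _ => Finset.sum_le_sum (fun b _ => ?_))
          exact jensen univ (fun a => P a x) (fun a => F a b) _ (fun a _ => h0 a x) (hc x)
      _ = ∑ x, ∑ a, ∑ b, P a x * Real.cosh (F a b / (4 * w)) :=
          Finset.sum_congr rfl (fun a _ => Finset.sum_comm)
      _ = ∑ a, ∑ x, ∑ b, P a x * Real.cosh (F a b / (4 * w)) := Finset.sum_comm
      _ = ∑ a, ∑ b, ∑ x, P a x * Real.cosh (F a b / (4 * w)) :=
          Finset.sum_congr rfl (fun a _ => Finset.sum_comm)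
      _ = ∑ a, ∑ b, Real.cosh (F a b / (4 * w)) := by
          refine Finset.sum_congr rfl (fun a _ => Finset.sum_congr rfl (fun b _ => ?_))
          rw [← Finset.sum_mul, hr a, one_mul]

theorem PS2 : ST_PS2 := by
  intro w T E F hTE hT
  unfold Psi
  rw [Finset.sum_comm, Finset.sum_comm (f := fun a b => Real.cosh (F a b / (4 * w)))]
  refine Finset.sum_le_sum (fun b _ => ?_)
  have hn : (0 : ℝ) < ((T b).card : ℝ) := by exact_mod_cast hT b
  set c : ℝ := Real.cosh ((∑ a ∈ E b, F a b) / (T b).card / (4 * w)) with hc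
  have hJ : ((T b).card : ℝ) * c ≤ ∑ a ∈ E b, Real.cosh (F a b / (4 * w)) := by
    have h := jensen (E b) (fun _ => 1 / ((T b).card : ℝ)) (fun a => F a b) (4 * w)
      (fun _ _ => by positivity)
      (by rw [Finset.sum_const, nsmul_eq_mul, hTE b]; field_simp)
    rw [← Finset.mul_sum, ← Finset.mul_sum] at h
    have e2 : 1 / ((T b).card : ℝ) * ∑ a ∈ E b, F a b = (∑ a ∈ E b, F a b) / (T b).card := by
      ring
    rw [e2] at h
    rw [hc]
    calc ((T b).card : ℝ) * Real.cosh ((∑ a ∈ E b, F a b) / (T b).card / (4 * w))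
        ≤ ((T b).card : ℝ) * (1 / ((T b).card : ℝ) * ∑ a ∈ E b, Real.cosh (F a b / (4 * w))) :=
          mul_le_mul_of_nonneg_left h hn.le
      _ = ∑ a ∈ E b, Real.cosh (F a b / (4 * w)) := by field_simp
  have h1 : ∑ x, Real.cosh ((if x ∈ T b then (∑ a ∈ E b, F a b) / (T b).card else 0) / (4 * w)) =
      w + (T b).card * (c - 1) := by
    have h2 : ∀ x : Fin w, Real.cosh
        ((if x ∈ T b then (∑ a ∈ E b, F a b) / (T b).card else 0) / (4 * w)) =
        1 + if x ∈ T b then c - 1 else 0 := by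
      intro x
      by_cases hx : x ∈ T b
      · simp [hx, hc]
      · simp [hx]
    rw [Finset.sum_congr rfl (fun x _ => h2 x), Finset.sum_add_distrib, Finset.sum_ite_mem,
      Finset.univ_inter]
    simp
    ring
  have h3 : (w : ℝ) + ∑ a ∈ E b, (Real.cosh (F a b / (4 * w)) - 1) ≤
      ∑ a, Real.cosh (F a b / (4 * w)) := by
    have h4 : ∀ a : Fin w, (1 + if a ∈ E b then Real.cosh (F a b / (4 * w)) - 1 else 0) ≤
        Real.cosh (F a b / (4 * w)) := by
      intro a
      by_cases ha : a ∈ E b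
      · simp [ha]
      · simp [ha, Real.one_le_cosh]
    have h5 := Finset.sum_le_sum (s := univ) (fun a _ => h4 a)
    rw [Finset.sum_add_distrib, Finset.sum_ite_mem, Finset.univ_inter] at h5
    simpa using h5
  rw [Finset.sum_sub_distrib] at h3
  rw [h1]
  have h6 : ∑ a ∈ E b, (1 : ℝ) = (T b).card := by rw [Finset.sum_const, nsmul_eq_mul, hTE b]; simp
  rw [h6] at h3
  linarith

theorem PS3 : ST_PS3 := by
  intro w F F' s t Λ hs ht hst h1 h2
  unfold Psi at *
  have h : ∑ a, ∑ b, Real.cosh ((s * F a b + t * F' a b) / (4 * w)) ≤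
      s * ∑ a, ∑ b, Real.cosh (F a b / (4 * w)) + t * ∑ a, ∑ b, Real.cosh (F' a b / (4 * w)) := by
    rw [Finset.mul_sum, Finset.mul_sum, ← Finset.sum_add_distrib]
    refine Finset.sum_le_sum (fun a _ => ?_)
    rw [Finset.mul_sum, Finset.mul_sum, ← Finset.sum_add_distrib]
    refine Finset.sum_le_sum (fun b _ => ?_)
    have h := convex_cosh.2 (Set.mem_univ (F a b / (4 * w))) (Set.mem_univ (F' a b / (4 * w)))
      hs ht hst
    simp only [smul_eq_mul] at h
    have e : (s * F a b + t * F' a b) / (4 * w) = s * (F a b / (4 * w)) + t * (F' a b / (4 * w)) := by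
      ring
    rw [e]
    exact h
  have h3 := mul_le_mul_of_nonneg_left h1 hs
  have h4 := mul_le_mul_of_nonneg_left h2 ht
  have h5 : s * Λ + t * Λ = Λ := by rw [← add_mul, hst, one_mul]
  linarith

lemma cosh_add_le1 (y s : ℝ) : Real.cosh (y + s) ≤ Real.exp |s| * Real.cosh y := by
  have e1 : Real.exp (y + s) ≤ Real.exp |s| * Real.exp y := by
    rw [← Real.exp_add]
    exact Real.exp_le_exp.2 (by linarith [le_abs_self s])
  have e2 : Real.exp (-(y + s)) ≤ Real.exp |s| * Real.exp (-y) := by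
    rw [← Real.exp_add]
    exact Real.exp_le_exp.2 (by linarith [neg_abs_le s])
  rw [Real.cosh_eq, Real.cosh_eq]
  linarith

lemma cosh_add_le2 (y s : ℝ) (hs : |s| ≤ 1) :
    Real.cosh (y + s) ≤ (1 + s ^ 2) * Real.cosh y + s * Real.sinh y := by
  have h1 : Real.exp s ≤ 1 + s + s ^ 2 := by
    have := (abs_le.1 (Real.abs_exp_sub_one_sub_id_le hs)).2
    linarith
  have h2 : Real.exp (-s) ≤ 1 - s + s ^ 2 := by
    have := (abs_le.1 (Real.abs_exp_sub_one_sub_id_le (x := -s) (by rwa [abs_neg]))).2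
    have e : (-s) ^ 2 = s ^ 2 := by ring
    rw [e] at this
    linarith
  rw [Real.cosh_eq, Real.cosh_eq, Real.sinh_eq, Real.exp_add, neg_add, Real.exp_add]
  have h3 := mul_le_mul_of_nonneg_left h1 (Real.exp_pos y).le
  have h4 := mul_le_mul_of_nonneg_left h2 (Real.exp_pos (-y)).le
  nlinarith

theorem PS4 : ST_PS4 := by
  intro w F d hw hd
  have hw0 : (0 : ℝ) < w := by exact_mod_cast hw
  have hw1 : (1 : ℝ) ≤ w := by exact_mod_cast hw
  have hsb : ∀ a b, |d a b / (4 * w)| ≤ 1 / w := by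
    intro a b
    rw [abs_div, abs_of_pos (by positivity : (0 : ℝ) < 4 * w), div_le_div_iff₀ (by positivity) hw0]
    nlinarith [hd a b]
  have h1w : (1 : ℝ) / w ≤ 1 := by
    rw [div_le_one hw0]
    exact hw1
  constructor
  · unfold Psi
    rw [Finset.mul_sum]
    refine Finset.sum_le_sum (fun a _ => ?_)
    rw [Finset.mul_sum]
    refine Finset.sum_le_sum (fun b _ => ?_)
    rw [add_div]
    refine (cosh_add_le1 _ _).trans ?_
    exact mul_le_mul_of_nonneg_right (Real.exp_le_exp.2 (hsb a b)) (Real.cosh_pos _).le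
  · intro hg
    have h1 : Psi (fun a b => F a b + d a b) ≤ (1 + 1 / w ^ 2) * Psi F +
        1 / (4 * w) * ∑ a, ∑ b, Real.sinh (F a b / (4 * w)) * d a b := by
      unfold Psi
      rw [Finset.mul_sum, Finset.mul_sum, ← Finset.sum_add_distrib]
      refine Finset.sum_le_sum (fun a _ => ?_)
      rw [Finset.mul_sum, Finset.mul_sum, ← Finset.sum_add_distrib]
      refine Finset.sum_le_sum (fun b _ => ?_)
      rw [add_div]
      refine (cosh_add_le2 _ _ ((hsb a b).trans h1w)).trans ?_
      have h2 : (d a b / (4 * w)) ^ 2 ≤ 1 / w ^ 2 := by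
        have := pow_le_pow_left₀ (abs_nonneg _) (hsb a b) 2
        rw [sq_abs] at this
        calc (d a b / (4 * w)) ^ 2 ≤ (1 / w) ^ 2 := this
          _ = 1 / w ^ 2 := by rw [div_pow, one_pow]
      have h3 := mul_le_mul_of_nonneg_right h2 (Real.cosh_pos (F a b / (4 * w))).le
      have h4 : d a b / (4 * w) * Real.sinh (F a b / (4 * w)) =
          1 / (4 * w) * (Real.sinh (F a b / (4 * w)) * d a b) := by ring
      rw [h4]
      nlinarith
    have hP : 0 ≤ Psi F := by
      unfold Psi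
      exact Finset.sum_nonneg (fun a _ => Finset.sum_nonneg (fun b _ => (Real.cosh_pos _).le))
    have h5 : 1 / (4 * (w : ℝ)) * ∑ a, ∑ b, Real.sinh (F a b / (4 * w)) * d a b ≤ 0 :=
      mul_nonpos_of_nonneg_of_nonpos (by positivity) hg
    have h6 : (1 : ℝ) + 1 / w ^ 2 ≤ Real.exp (11 / 8 / w ^ 2) := by
      have h7 := Real.add_one_le_exp ((11 : ℝ) / 8 / w ^ 2)
      have h8 : (1 : ℝ) / w ^ 2 ≤ 11 / 8 / w ^ 2 := by
        apply div_le_div_of_nonneg_right _ (by positivity)
        norm_num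
      linarith
    have h9 := mul_le_mul_of_nonneg_right h6 hP
    linarith

lemma exp_abs_le (t : ℝ) : Real.exp |t| / 2 ≤ Real.cosh t := by
  rw [← Real.cosh_abs, Real.cosh_eq]
  have := Real.exp_pos (-|t|)
  linarith

theorem PS5 (hWB : ST_WB) : ST_PS5 := by
  intro w G F hw hG hF a b
  have hw0 : (0 : ℝ) < w := by exact_mod_cast hw
  have hw1 : (1 : ℝ) ≤ w := by exact_mod_cast hw
  obtain ⟨hB1, hB2⟩ := hWB w hw
  have hL1 : (1 : ℝ) ≤ (LL w : ℝ) := by
    have : 1 ≤ LL w := by unfold LL; omega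
    exact_mod_cast this
  have hlog : Real.log w ≤ LL w * Real.log 2 := by
    have h1 : w < 2 ^ LL w := by
      unfold LL
      exact Nat.lt_pow_succ_log_self (by norm_num) w
    have h2 : (w : ℝ) ≤ 2 ^ LL w := by exact_mod_cast h1.le
    calc Real.log w ≤ Real.log (2 ^ LL w) := Real.log_le_log hw0 h2
      _ = LL w * Real.log 2 := by rw [Real.log_pow]
  have hl2 : Real.log 2 < 0.6931471808 := Real.log_two_lt_d9
  have hlog0 : 0 ≤ Real.log w := Real.log_nonneg hw1
  -- the single term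
  have h1 : Real.cosh (F a b / (4 * w)) ≤ Psi F := by
    unfold Psi
    calc Real.cosh (F a b / (4 * w)) ≤ ∑ b', Real.cosh (F a b' / (4 * w)) :=
          Finset.single_le_sum (f := fun b' => Real.cosh (F a b' / (4 * w)))
            (fun b' _ => (Real.cosh_pos _).le) (Finset.mem_univ b)
      _ ≤ ∑ a', ∑ b', Real.cosh (F a' b' / (4 * w)) :=
          Finset.single_le_sum (f := fun a' => ∑ b', Real.cosh (F a' b' / (4 * w)))
            (fun a' _ => Finset.sum_nonneg (fun b' _ => (Real.cosh_pos _).le)) (Finset.mem_univ a)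
  have h2 : Real.exp |F a b / (4 * w)| ≤ 2 * lamG G := by
    have := exp_abs_le (F a b / (4 * w))
    linarith
  have hcard : (0 : ℝ) ≤ (G.card : ℝ) / w ^ 2 := by positivity
  have h3 : lamG G ≤ w ^ 2 * Real.exp (11 / 8 + 50 + 100 * Real.log w) := by
    unfold lamG
    refine mul_le_mul_of_nonneg_left (Real.exp_le_exp.2 ?_) (by positivity)
    have h4 : WW (univ : Gr w) - WW G ≤ 2 * w * Real.log w + w := by
      have := hB1 G hG
      linarith
    have h5 : 50 / (w : ℝ) * (WW (univ : Gr w) - WW G) ≤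
        50 / (w : ℝ) * (2 * w * Real.log w + w) :=
      mul_le_mul_of_nonneg_left h4 (by positivity)
    have h6 : 50 / (w : ℝ) * (2 * w * Real.log w + w) = 100 * Real.log w + 50 := by
      field_simp
      ring
    linarith
  have h7 : Real.exp |F a b / (4 * w)| ≤
      Real.exp (Real.log 2 + 2 * Real.log w + (11 / 8 + 50 + 100 * Real.log w)) := by
    rw [Real.exp_add, Real.exp_add, Real.exp_log (by norm_num)]
    have e : Real.exp (2 * Real.log w) = (w : ℝ) ^ 2 := by
      rw [two_mul, Real.exp_add, Real.exp_log hw0]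
      ring
    rw [e]
    calc Real.exp |F a b / (4 * w)| ≤ 2 * lamG G := h2
      _ ≤ 2 * (w ^ 2 * Real.exp (11 / 8 + 50 + 100 * Real.log w)) := by linarith
      _ = 2 * w ^ 2 * Real.exp (11 / 8 + 50 + 100 * Real.log w) := by ring
  have h8 := Real.exp_le_exp.1 h7
  have h9 : |F a b / (4 * w)| ≤ 123 * LL w := by
    have h10 : Real.log 2 + 2 * Real.log w + (11 / 8 + 50 + 100 * Real.log w) ≤ 123 * LL w := by
      have h11 : 102 * Real.log w ≤ 102 * (LL w * Real.log 2) := by linarith
      have h12 : (LL w : ℝ) * Real.log 2 ≤ LL w * 0.6931471808 :=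
        mul_le_mul_of_nonneg_left hl2.le (by linarith)
      nlinarith
    linarith
  rw [abs_div, abs_of_pos (by positivity : (0 : ℝ) < 4 * w), div_le_iff₀ (by positivity)] at h9
  unfold e0
  nlinarith

end Pool.Agent.Helper85.D5
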